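import Pool.Agent.L0h99.MN.Stm

/-!
# Project MN (helper99), module C2
-/

set_option autoImplicit false

namespace Pool.Agent.L0h83.MN

open Finset Pool.Agent.L0h99.MN

theorem C2 : St_C2 := by
  intro V _ _ G W H hG hI hCA
  by_cases hCB : CB G H
  · exact Or.inr hCB
  left
  unfold CB at hCB
  push Not at hCB
  obtain ⟨v, hv, h, hh, w, y, hvw, hwy, hyh⟩ := hCB
  have hvW : v ∈ W := hI.sub hv
  have hhW : h ∈ W := hI.sub hh
  have hyW : y ∈ W := hI.hN h hh y hyh.symm
  have hNW : ∀ x, G.Adj v x → x ∈ W := hI.hN v hv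
  have h1 : v ≠ h := by
    intro e
    exact hG.t v w y hvw hwy (e ▸ hyh.symm)
  have h2 : v ≠ y := by
    intro e
    exact hI.ind v hv h hh (e ▸ hyh)
  have h3 : y ≠ h := hyh.ne
  have h4 : ¬ G.Adj v y := hG.t v w y hvw hwy
  have h5 : ¬ G.Adj v h := hI.ind v hv h hh
  have hmT : ∀ x, x ∈ ({v, y, h} ∪ N G v : Finset V) ↔ (x = v ∨ x = y ∨ x = h ∨ G.Adj v x) := by
    intro x
    rw [mem_union, mem_N, mem_insert, mem_insert, mem_singleton]
    tauto
  have hTW : ({v, y, h} ∪ N G v : Finset V) ⊆ W := by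
    intro x hx
    rcases (hmT x).1 hx with e | e | e | e
    · exact e ▸ hvW
    · exact e ▸ hyW
    · exact e ▸ hhW
    · exact hNW x e
  have hdis : Disjoint ({v, y, h} : Finset V) (N G v) := by
    rw [disjoint_left]
    intro x hx hx'
    rw [mem_N] at hx'
    rw [mem_insert, mem_insert, mem_singleton] at hx
    rcases hx with e | e | e
    · rw [e] at hx'
      exact G.loopless.irrefl v hx'
    · rw [e] at hx'
      exact h4 hx'
    · rw [e] at hx'
      exact h5 hx'
  have hc3 : ({v, y, h} : Finset V).card = 3 := by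
    rw [card_insert_of_notMem, card_insert_of_notMem, card_singleton]
    · rw [mem_singleton]
      exact h3
    · rw [mem_insert, mem_singleton]
      rintro (e | e)
      · exact h2 e
      · exact h1 e
  have hcard : 6 ≤ ({v, y, h} ∪ N G v : Finset V).card := by
    rw [card_union_of_disjoint hdis, hc3]
    have := hI.deg v hvW
    omega
  have hMu : (6 : ℤ) ≤ Mu G ({v, y, h} ∪ N G v) := by
    unfold Mu
    have e1 : ∑ x ∈ ({v, y, h} ∪ N G v : Finset V), (1 : ℤ) ≤
        ∑ x ∈ ({v, y, h} ∪ N G v : Finset V), mu G x := by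
      refine sum_le_sum fun x hx => ?_
      have := hI.deg x (hTW hx)
      unfold mu
      omega
    rw [sum_const, nsmul_eq_mul, mul_one] at e1
    have e2 : (6 : ℤ) ≤ (({v, y, h} ∪ N G v : Finset V).card : ℤ) := by exact_mod_cast hcard
    exact e2.trans e1
  refine ⟨{v, y, h} ∪ N G v, ∅, hTW, empty_subset _, disjoint_empty_right _, ?_, ?_, ?_, ?_, ?_⟩
  · intro x hx
    exact absurd hx (notMem_empty x)
  · refine ⟨w, (hmT w).2 (Or.inr (Or.inr (Or.inr hvw))), ?_⟩
    intro x hx
    rcases (hmT x).1 hx with e | e | e | e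
    · exact Or.inr (Or.inl (e ▸ hvw.symm))
    · exact Or.inr (Or.inl (e ▸ hwy))
    · exact Or.inr (Or.inr ⟨y, (hmT y).2 (Or.inr (Or.inl rfl)), hwy, e ▸ hyh⟩)
    · exact Or.inr (Or.inr ⟨v, (hmT v).2 (Or.inl rfl), hvw.symm, e⟩)
  · have e1 : ee G ∅ ∅ = 0 := by
      unfold ee
      exact sum_empty
    have e2 : Mu G ∅ = 0 := by
      unfold Mu
      exact sum_empty
    rw [e1, e2]
    linarith
  · intro g hg hgT z hz hgz
    rcases hz with hz | hz
    · rcases (hmT z).1 hz with e | e | e | e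
      · exact hI.ind g hg v hv (e ▸ hgz)
      · subst e
        have := hCA z g hg h hh hgz.symm hyh
        exact hgT ((hmT g).2 (Or.inr (Or.inr (Or.inl this))))
      · exact hI.ind g hg h hh (e ▸ hgz)
      · have := hCA z g hg v hv hgz.symm e.symm
        exact hgT ((hmT g).2 (Or.inl this))
    · exact absurd hz (notMem_empty z)
  · intro x hx
    exact absurd hx (notMem_empty x)

end Pool.Agent.L0h83.MN
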